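import Pool.Agent.Lib.PCP.Kmsv3
import Pool.Agent.Lib.PCP.Union
import Pool.Agent.Lib.MP_311ff9_lc.Final

/-!
# Max-3DM with the dimension part of the input is APX-hard under every `L_p` norm
-/

namespace Pool.Agent.Results.MP_311ff9_lc.ApxHard

open Pool.Agent.PolyTime Pool.Agent.MP_311ff9_lc Pool.Agent.PCP
open scoped ENNReal

theorem exists_uk (Δ : ℕ) : Nonempty (Uk Δ) := by
  obtain ⟨F, P, hF, hP, h⟩ := union_graphs Δ
  exact ⟨{
    F := F
    P := P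
    hF := hF
    hP := hP
    U := fun Xs => (h Xs).choose
    matrix := fun Xs => (h Xs).choose_spec.1
    parts := fun Xs => (h Xs).choose_spec.2 }⟩

/-- For every `p` in `[1, ∞]`, Max-3DM under `L_p` with the dimension part of the input is
APX-hard: every problem in APX (maximization or minimization) is AP-reducible to it. -/
theorem result (p : ℝ≥0∞) [Fact (1 ≤ p)] : APXHard (opt3DM p) := by
  intro A hA
  obtain ⟨C⟩ := exists_ctx hA
  obtain ⟨PK⟩ := exists_pk C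
  obtain ⟨Δ, k, ⟨TK⟩⟩ := exists_tk
  obtain ⟨UK⟩ := exists_uk Δ
  obtain ⟨ℓ, hℓ, hemb⟩ := levelEmb (Δ := Δ) p
  have hα1 := one_le_alpha Δ hℓ
  have hα2 : 0 < ⌈alpha Δ ℓ⌉₊ := Nat.ceil_pos.2 (by linarith)
  exact compose p hℓ hemb ⌈alpha Δ ℓ⌉₊ (Nat.le_ceil _) (alp PK.δ k C.ρ ⌈alpha Δ ℓ⌉₊)
    (Nat.succ_pos _) (redF C PK TK UK (alp PK.δ k C.ρ ⌈alpha Δ ℓ⌉₊))
    (redF_ptime C PK TK UK _) (redG C PK TK UK (alp PK.δ k C.ρ ⌈alpha Δ ℓ⌉₊))
    (redG_ptime C PK TK UK _) (redG_feasible C PK TK UK _)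
    (fun r x S hS hr => red_ratio C PK TK UK hα2 r x S hS hr)

end Pool.Agent.Results.MP_311ff9_lc.ApxHard
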